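import Pool.Agent.H605.Mont.Quant4

/-!
# The constant in Montgomery's `ℓ^q` conjecture for `q` close to `2`

For `q = 2` the inequality of Q1 holds with an absolute constant and without `N^ε`. We show that for
`q > 2` close to `2` and `ε ≤ c (q - 2)^2` its constant is at least doubly exponential in
`1 / (q - 2)`, already for `T ≤ N^(q/2)`.
-/

set_option autoImplicit false

open Finset

namespace Pool.Agent.Results.MP_2a1f0e_nt.ConstantNearTwo

/-- `D(t) = ∑_{n=N}^{2N} b_n n^{it}` -/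
noncomputable def D (N : ℕ) (b : ℕ → ℂ) (t : ℝ) : ℂ :=
  ∑ n ∈ Icc N (2 * N), b n * Complex.exp (Complex.I * (t : ℂ) * (Real.log (n : ℝ) : ℂ))

/-- The inequality of Q1 for given `q`, `A`, `ε` with the constant `C`. -/
def MomentInequality (q A ε C : ℝ) : Prop :=
  ∀ (N T : ℕ) (b : ℕ → ℂ), 1 ≤ N → N ≤ T → (T : ℝ) ≤ (N : ℝ) ^ A →
    (∀ n ∈ Icc N (2 * N), ‖b n‖ ≤ 1) →
    ∑ t ∈ Icc 1 T, ‖D N b t‖ ^ q ≤ C * (N : ℝ) ^ ε * ((N : ℝ) ^ q + T * (N : ℝ) ^ (q / 2))

/-- There is an absolute constant `c > 0` with the following properties.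
(1) If `2 < q ≤ 2 + c`, `A ≥ q / 2` and `ε ≤ c (q - 2)^2`, then every constant `C` in the inequality
of Q1 is at least `exp (exp (c / (q - 2)))`.
(2) If `K ≥ 65536`, `K^(log log K) ≤ N^c` and `q ≥ 2`, then for some `|b_n| ≤ 1` the moment of order
`q` over the integers of `[1, K N]` is at least `c K N^(1 + q/2) N^(c (q-2) / log log K)`. -/
theorem result : ∃ c : ℝ, 0 < c ∧
    (∀ q A ε C : ℝ, 2 < q → q ≤ 2 + c → q / 2 ≤ A → ε ≤ c * (q - 2) ^ 2 →
      MomentInequality q A ε C → Real.exp (Real.exp (c / (q - 2))) ≤ C) ∧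
    (∀ (K q : ℝ) (N : ℕ), 65536 ≤ K →
      Real.log K * Real.log (Real.log K) ≤ c * Real.log N → 2 ≤ q →
      ∃ b : ℕ → ℂ, (∀ n, ‖b n‖ ≤ 1) ∧
        c * (K * (N : ℝ) ^ (1 + q / 2 + c * (q - 2) / Real.log (Real.log K))) ≤
          ∑ t ∈ Icc 1 ⌊K * N⌋₊, ‖D N b t‖ ^ q) := by
  obtain ⟨c, hc⟩ : ∃ c : ℝ, c = 1 / 2000000 := ⟨_, rfl⟩
  have hc0 : 0 < c := by rw [hc]; norm_num
  refine ⟨c, hc0, ?_, ?_⟩
  · intro q A ε C hq hqc hA hε h
    obtain ⟨δ, hδ⟩ : ∃ δ, δ = q - 2 := ⟨_, rfl⟩
    have hqδ : q = 2 + δ := by rw [hδ]; ring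
    rw [← hδ] at hε ⊢
    subst hqδ
    have hδ0 : 0 < δ := by linarith
    have hδc : δ ≤ 1 / 2000000 := by rw [hc] at hqc; linarith
    -- `C` is nonnegative
    have hC0 : 0 ≤ C := by
      have h1 := h 1 1 (fun _ => 0) le_rfl le_rfl (by norm_num)
        (fun n _ => by rw [norm_zero]; norm_num)
      have h2 : 0 ≤ ∑ t ∈ Icc 1 1, ‖D 1 (fun _ => 0) ((t : ℕ) : ℝ)‖ ^ (2 + δ) :=
        Finset.sum_nonneg fun t _ => by positivity
      rw [Nat.cast_one, Real.one_rpow, Real.one_rpow, Real.one_rpow] at h1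
      linarith
    have h1 := Pool.Agent.H605.Mont.moment_constant (δ := δ) (C := C) hδ0 hδc (by
      intro N T b hN hNT hT hb
      have hN1 : (1 : ℝ) ≤ N := by exact_mod_cast hN
      refine (h N T b hN hNT (hT.trans (Real.rpow_le_rpow_of_exponent_le hN1
        (by linarith))) hb).trans ?_
      apply mul_le_mul_of_nonneg_right _ (by positivity)
      apply mul_le_mul_of_nonneg_left _ hC0
      apply Real.rpow_le_rpow_of_exponent_le hN1
      refine hε.trans ?_
      rw [hc]
      nlinarith [sq_nonneg δ])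
    refine le_trans (le_of_eq ?_) h1
    rw [hc, div_div]
  · intro K q N hK hN hq
    have hK16 : 16 ≤ K := by linarith
    obtain ⟨h1, h2⟩ := Pool.Agent.H605.Mont.logK_bounds hK16
    have h3 : 0 < Real.log K * Real.log (Real.log K) := by
      apply mul_pos <;> linarith
    have hcond : 100000 * (Real.log K * Real.log (Real.log K)) ≤ Real.log N := by
      rw [hc] at hN
      linarith
    obtain ⟨b, hb, hlow⟩ := Pool.Agent.H605.Mont.moment_large hK hcond hq
    refine ⟨b, hb, ?_⟩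
    have h4 : 0 < Real.log N := by linarith
    have hN1 : (1 : ℝ) ≤ N := by
      by_contra hcon
      rw [not_le] at hcon
      have h5 : N = 0 := by
        have : N < 1 := by exact_mod_cast hcon
        omega
      rw [h5, Nat.cast_zero, Real.log_zero] at h4
      exact lt_irrefl _ h4
    refine le_trans ?_ hlow
    have h5 : (N : ℝ) ^ (1 + q / 2 + c * (q - 2) / Real.log (Real.log K)) ≤
        (N : ℝ) ^ (1 + q / 2 + (q - 2) * (1 / (100000 * Real.log (Real.log K)))) := by
      apply Real.rpow_le_rpow_of_exponent_le hN1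
      have h6 : c * (q - 2) / Real.log (Real.log K) =
          (q - 2) * (1 / (2000000 * Real.log (Real.log K))) := by
        rw [hc]
        field_simp
      rw [h6]
      have h7 : 1 / (2000000 * Real.log (Real.log K)) ≤ 1 / (100000 * Real.log (Real.log K)) := by
        apply one_div_le_one_div_of_le (by positivity)
        nlinarith
      have h8 := mul_le_mul_of_nonneg_left h7 (show 0 ≤ q - 2 by linarith)
      linarith
    have hK0 : 0 < K := by linarith
    have h9 : K * (N : ℝ) ^ (1 + q / 2 + c * (q - 2) / Real.log (Real.log K)) ≤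
        K * (N : ℝ) ^ (1 + q / 2 + (q - 2) * (1 / (100000 * Real.log (Real.log K)))) :=
      mul_le_mul_of_nonneg_left h5 hK0.le
    have hN0 : (0 : ℝ) < N := by linarith
    have h10 : 0 ≤ K * (N : ℝ) ^ (1 + q / 2 + (q - 2) * (1 / (100000 * Real.log (Real.log K)))) := by
      positivity
    rw [hc]
    rw [hc] at h9
    linarith

end Pool.Agent.Results.MP_2a1f0e_nt.ConstantNearTwo
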