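import Mathlib
import Pool.Agent.H472.PV.Main

set_option autoImplicit false

/-!
# Montgomery's `ℓ^q` inequality for coefficients supported on the values of few polynomials

The inequality of Q1 holds, for all `q ≥ 2` with a constant `C^q`, without the loss `N^ε` and for all `T ≤ N^A`, for
all coefficients bounded by `1` supported on the integers of `[N, 2N]` that are values, at integers, of the
polynomials of a set `B`: `B` is any set of at most `N^(1/2-μ)` integer-valued polynomials of degree at most `K` (with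
arbitrary coefficients, which may depend on `N`) which have together at most about `N^(1/2+c)` values up to `N`. For
instance `B` may consist of any `N^(1/2-1/k+c)` polynomials of degree `k ≥ 2` with integer coefficients. The points
`1, …, T` may be replaced by any `1`-separated set of reals in an interval of length `N^A`.
-/

namespace Pool.Agent.Results.MP_2a1f0e_nt.PolynomialValues

open Finset

/-- `D(t) = ∑_{N ≤ n ≤ 2N} b_n n^{it}` -/
noncomputable def D (N : ℕ) (b : ℕ → ℂ) (t : ℝ) : ℂ :=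
  ∑ n ∈ Icc N (2 * N), b n * Complex.exp (Complex.I * (t : ℂ) * (Real.log (n : ℝ) : ℂ))

/-- `B` consists of at most `N^(1/2-μ)` integer-valued polynomials `P` with real coefficients, of degree
`1 ≤ k_P ≤ K`, and `∑_{P ∈ B} (N / |β_P|)^(1/k_P) ≤ N^(1/2+c)` where `β_P` is the leading coefficient of `P` -/
def Few (N : ℕ) (μ c : ℝ) (K : ℕ) (B : Finset (Polynomial ℝ)) : Prop :=
  (∀ P ∈ B, 1 ≤ P.natDegree ∧ P.natDegree ≤ K ∧ ∀ d : ℤ, ∃ m : ℤ, P.eval (d : ℝ) = m) ∧
    (B.card : ℝ) ≤ (N : ℝ) ^ (1 / 2 - μ) ∧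
    ∑ P ∈ B, ((N : ℝ) / |P.leadingCoeff|) ^ ((1 : ℝ) / P.natDegree) ≤ (N : ℝ) ^ (1 / 2 + c)

/-- `n` is a value of a polynomial of `B` at an integer, or an element of `E` -/
def Supp (B : Finset (Polynomial ℝ)) (E : Finset ℕ) (n : ℕ) : Prop :=
  n ∈ E ∨ ∃ P ∈ B, ∃ d : ℤ, (n : ℝ) = P.eval (d : ℝ)

/-- Let `A > 0`, `μ > 0` and `K ≥ 1`. There are `c > 0` and `C` such that for all `N`, all `B` with `Few N μ c K B`,
all sets `E` of at most `N^(1/2)` integers, all complex `b_n`, `|b_n| ≤ 1`, supported in `[N, 2N]` on the integers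
that are values of polynomials of `B` or elements of `E`, and ALL real `q ≥ 2`:
(1) `∑_{1 ≤ t ≤ T} |D(t)|^q ≤ C^q (N^q + T N^(q/2))` for all integers `1 ≤ T ≤ N^A`;
(2) `∑_{t ∈ S} |D(t)|^q ≤ C^q (N^q + |S| N^(q/2))` for every `1`-separated set `S` of real numbers in an interval of
length at most `N^A`. -/
theorem result (A μ : ℝ) (K : ℕ) (hμ : 0 < μ) (hK : 1 ≤ K) :
    ∃ c C : ℝ, 0 < c ∧ ∀ (N : ℕ) (B : Finset (Polynomial ℝ)) (E : Finset ℕ) (b : ℕ → ℂ), 1 ≤ N →
      Few N μ c K B → (E.card : ℝ) ≤ (N : ℝ) ^ (1 / 2 : ℝ) → (∀ n, ‖b n‖ ≤ 1) →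
      (∀ n ∈ Icc N (2 * N), b n ≠ 0 → Supp B E n) → ∀ q : ℝ, 2 ≤ q →
        (∀ T : ℕ, 1 ≤ T → (T : ℝ) ≤ (N : ℝ) ^ A →
          ∑ t ∈ Icc 1 T, ‖D N b (t : ℝ)‖ ^ q ≤ C ^ q * ((N : ℝ) ^ q + T * (N : ℝ) ^ (q / 2))) ∧
        (∀ (x T : ℝ) (S : Finset ℝ), T ≤ (N : ℝ) ^ A → (∀ t ∈ S, x ≤ t ∧ t ≤ x + T) →
          (∀ t ∈ S, ∀ u ∈ S, t ≠ u → 1 ≤ |t - u|) →
          ∑ t ∈ S, ‖D N b t‖ ^ q ≤ C ^ q * ((N : ℝ) ^ q + S.card * (N : ℝ) ^ (q / 2))) := by
  classical
  set μ' : ℝ := min μ (1 / 2) with hμ'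
  have hμ'0 : 0 < μ' := lt_min hμ (by norm_num)
  have hμ'1 : μ' ≤ 1 / 2 := min_le_right _ _
  have hμ'2 : μ' ≤ μ := min_le_left _ _
  obtain ⟨c1, C1, hc1, hC1, h⟩ := Pool.Agent.H472.PV.mainE (max A 0) μ' K hμ'0 hK
  set N0 : ℝ := (2 : ℝ) ^ (2 / c1) with hN0
  have hN01 : 1 ≤ N0 := Real.one_le_rpow (by norm_num) (by positivity)
  set C : ℝ := max (4 * C1) (2 * N0) with hC
  have hCa : 4 * C1 ≤ C := le_max_left _ _
  have hCb : 2 * N0 ≤ C := le_max_right _ _
  have hC0 : 0 < C := by linarith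
  have hC1' : 1 ≤ C := by linarith
  refine ⟨c1 / 2, C, by positivity, ?_⟩
  intro N B E b hN hB hE hb hs q hq
  have hN1 : (1 : ℝ) ≤ N := by exact_mod_cast hN
  have hNpos : (0 : ℝ) < N := by linarith
  have hDle : ∀ t : ℝ, ‖D N b t‖ ≤ 2 * N := by
    intro t
    unfold D
    refine (norm_sum_le _ _).trans ?_
    calc ∑ n ∈ Icc N (2 * N), ‖b n * Complex.exp (Complex.I * (t : ℂ) * (Real.log (n : ℝ) : ℂ))‖
        ≤ ∑ n ∈ Icc N (2 * N), (1 : ℝ) := by
          apply sum_le_sum
          intro n hn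
          have e : Complex.I * (t : ℂ) * (Real.log (n : ℝ) : ℂ) = ((t * Real.log n : ℝ) : ℂ) * Complex.I := by
            push_cast; ring
          rw [norm_mul, e, Complex.norm_exp_ofReal_mul_I, mul_one]
          exact hb n
      _ = (((2 * N + 1 - N : ℕ)) : ℝ) := by rw [sum_const, Nat.card_Icc, nsmul_eq_mul, mul_one]
      _ ≤ 2 * N := by
          have : 2 * N + 1 - N ≤ 2 * N := by omega
          exact_mod_cast this
  -- the second statement
  have key : ∀ (x T : ℝ) (S : Finset ℝ), T ≤ (N : ℝ) ^ A → (∀ t ∈ S, x ≤ t ∧ t ≤ x + T) →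
      (∀ t ∈ S, ∀ u ∈ S, t ≠ u → 1 ≤ |t - u|) →
      ∑ t ∈ S, ‖D N b t‖ ^ q ≤ C ^ q * ((N : ℝ) ^ q + S.card * (N : ℝ) ^ (q / 2)) := by
    intro x T S hT hST hsep
    rcases lt_or_ge (N : ℝ) N0 with hsm | hbig
    · have h1 : ∀ t ∈ S, ‖D N b t‖ ^ q ≤ C ^ q * (N : ℝ) ^ (q / 2) := by
        intro t _
        calc ‖D N b t‖ ^ q ≤ (2 * N : ℝ) ^ q := Real.rpow_le_rpow (norm_nonneg _) (hDle t) (by linarith)
          _ ≤ (C * (N : ℝ) ^ (1 / 2 : ℝ)) ^ q := by
              apply Real.rpow_le_rpow (by positivity) _ (by linarith)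
              have e1 : (N : ℝ) ^ (1 / 2 : ℝ) * (N : ℝ) ^ (1 / 2 : ℝ) = N := by
                rw [← Real.rpow_add hNpos]; norm_num
              have e2 : (N : ℝ) ^ (1 / 2 : ℝ) ≤ N0 := by
                calc (N : ℝ) ^ (1 / 2 : ℝ) ≤ (N : ℝ) ^ (1 : ℝ) :=
                      Real.rpow_le_rpow_of_exponent_le hN1 (by norm_num)
                  _ = N := Real.rpow_one _
                  _ ≤ N0 := hsm.le
              have e3 : 0 ≤ (N : ℝ) ^ (1 / 2 : ℝ) := by positivity
              calc (2 * N : ℝ) = 2 * (N : ℝ) ^ (1 / 2 : ℝ) * (N : ℝ) ^ (1 / 2 : ℝ) := by rw [mul_assoc, e1]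
                _ ≤ C * (N : ℝ) ^ (1 / 2 : ℝ) := by
                    apply mul_le_mul_of_nonneg_right _ e3
                    linarith
          _ = C ^ q * (N : ℝ) ^ (q / 2) := by
              rw [Real.mul_rpow hC0.le (by positivity), ← Real.rpow_mul hNpos.le]
              congr 2; ring
      calc ∑ t ∈ S, ‖D N b t‖ ^ q ≤ ∑ t ∈ S, C ^ q * (N : ℝ) ^ (q / 2) := sum_le_sum h1
        _ = C ^ q * (S.card * (N : ℝ) ^ (q / 2)) := by rw [sum_const, nsmul_eq_mul]; ring
        _ ≤ _ := by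
            apply mul_le_mul_of_nonneg_left _ (by positivity)
            have : 0 ≤ (N : ℝ) ^ q := by positivity
            linarith
    · set M : ℕ := 2 * N with hM
      have hMN : (M : ℝ) = 2 * N := by rw [hM]; push_cast; ring
      have hM1 : 1 ≤ M := by omega
      have hM1' : (1 : ℝ) ≤ M := by exact_mod_cast hM1
      have hM0 : (0 : ℝ) < M := by linarith
      have hNM : (N : ℝ) ≤ M := by rw [hMN]; linarith
      have hAdm : Pool.Agent.H472.PV.Adm M μ' c1 K B := by
        refine ⟨hB.1, ?_, ?_⟩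
        · calc (B.card : ℝ) ≤ (N : ℝ) ^ (1 / 2 - μ) := hB.2.1
            _ ≤ (N : ℝ) ^ (1 / 2 - μ') := Real.rpow_le_rpow_of_exponent_le hN1 (by linarith)
            _ ≤ (M : ℝ) ^ (1 / 2 - μ') := Real.rpow_le_rpow hNpos.le hNM (by linarith)
        · have e1 : ∀ P ∈ B, Pool.Agent.H472.PV.Ysz M P ≤
              2 * ((N : ℝ) / |P.leadingCoeff|) ^ ((1 : ℝ) / P.natDegree) := by
            intro P hP
            have hk : (1 : ℝ) ≤ P.natDegree := by exact_mod_cast (hB.1 P hP).1
            unfold Pool.Agent.H472.PV.Ysz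
            have e2 : (M : ℝ) / |P.leadingCoeff| = 2 * ((N : ℝ) / |P.leadingCoeff|) := by rw [hMN]; ring
            rw [e2, Real.mul_rpow (by norm_num) (by positivity)]
            apply mul_le_mul_of_nonneg_right _ (by positivity)
            calc (2 : ℝ) ^ ((1 : ℝ) / P.natDegree) ≤ (2 : ℝ) ^ (1 : ℝ) := by
                  apply Real.rpow_le_rpow_of_exponent_le (by norm_num)
                  rw [div_le_one (by linarith)]
                  exact hk
              _ = 2 := Real.rpow_one _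
          calc ∑ P ∈ B, Pool.Agent.H472.PV.Ysz M P
              ≤ ∑ P ∈ B, 2 * ((N : ℝ) / |P.leadingCoeff|) ^ ((1 : ℝ) / P.natDegree) := sum_le_sum e1
            _ = 2 * ∑ P ∈ B, ((N : ℝ) / |P.leadingCoeff|) ^ ((1 : ℝ) / P.natDegree) := by rw [mul_sum]
            _ ≤ 2 * (N : ℝ) ^ (1 / 2 + c1 / 2) := by linarith [hB.2.2]
            _ ≤ (N : ℝ) ^ (c1 / 2) * (N : ℝ) ^ (1 / 2 + c1 / 2) := by
                apply mul_le_mul_of_nonneg_right _ (by positivity)
                calc (2 : ℝ) = N0 ^ (c1 / 2) := by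
                      rw [hN0, ← Real.rpow_mul (by norm_num)]
                      rw [show 2 / c1 * (c1 / 2) = 1 by field_simp, Real.rpow_one]
                  _ ≤ (N : ℝ) ^ (c1 / 2) := Real.rpow_le_rpow (by linarith) hbig (by positivity)
            _ = (N : ℝ) ^ (1 / 2 + c1) := by rw [← Real.rpow_add hNpos]; congr 1; ring
            _ ≤ (M : ℝ) ^ (1 / 2 + c1) := Real.rpow_le_rpow hNpos.le hNM (by positivity)
      have hEM : (E.card : ℝ) ≤ (M : ℝ) ^ (1 / 2 : ℝ) :=
        hE.trans (Real.rpow_le_rpow hNpos.le hNM (by norm_num))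
      have hTM : T ≤ (M : ℝ) ^ (max A 0) := by
        calc T ≤ (N : ℝ) ^ A := hT
          _ ≤ (N : ℝ) ^ (max A 0) := Real.rpow_le_rpow_of_exponent_le hN1 (le_max_left _ _)
          _ ≤ (M : ℝ) ^ (max A 0) := Real.rpow_le_rpow hNpos.le hNM (le_max_right _ _)
      set a : ℕ → ℂ := fun n => if n ∈ Icc N (2 * N) then b n else 0 with ha
      have haS : ∀ n ∈ Icc 1 M, a n ≠ 0 → n ∈ E ∨ Pool.Agent.H472.PV.Val B n := by
        intro n _ hn
        simp only [ha] at hn
        by_cases hnI : n ∈ Icc N (2 * N)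
        · rw [if_pos hnI] at hn
          exact hs n hnI hn
        · rw [if_neg hnI] at hn
          exact absurd rfl hn
      have ha1 : ∀ n ∈ Icc 1 M, ‖a n‖ ≤ 1 := by
        intro n _
        simp only [ha]
        by_cases hnI : n ∈ Icc N (2 * N)
        · rw [if_pos hnI]; exact hb n
        · rw [if_neg hnI]; simp
      have hDa : ∀ t : ℝ, D N b t = ∑ n ∈ Icc 1 M, a n * Pool.Agent.TH705.DL.ph t n := by
        intro t
        have hsub : Icc N (2 * N) ⊆ Icc 1 M := by
          intro n hn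
          rw [mem_Icc] at hn ⊢
          omega
        rw [← sum_subset hsub]
        · unfold D
          apply sum_congr rfl
          intro n hn
          simp only [ha]
          rw [if_pos hn]
          rfl
        · intro n _ hn
          simp only [ha]
          rw [if_neg hn, zero_mul]
      -- mean values over subsets
      have hmv : ∀ W : Finset ℝ, W ⊆ S → ∑ t ∈ W, ‖D N b t‖ ^ 2 ≤ C1 * ((M : ℝ) + W.card) * M := by
        intro W hW
        have := (h M B E hM1 hAdm hEM T x W a hTM (fun t ht u hu hne => hsep t (hW ht) u (hW hu) hne)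
          (fun t ht => hST t (hW ht)) haS).1 ha1
        simpa only [← hDa] using this
      set W : Finset ℝ := S.filter (fun t => 2 * C1 * M ≤ ‖D N b t‖ ^ 2) with hW
      have hWm := hmv W (filter_subset _ _)
      have hWcard : (W.card : ℝ) ≤ M := by
        have e1 : (W.card : ℝ) * (2 * C1 * M) ≤ ∑ t ∈ W, ‖D N b t‖ ^ 2 := by
          have := Finset.card_nsmul_le_sum W (fun t => ‖D N b t‖ ^ 2) (2 * C1 * M) (fun t ht => by
            rw [hW, mem_filter] at ht; exact ht.2)
          rwa [nsmul_eq_mul] at this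
        have e2 : (W.card : ℝ) * (C1 * M) ≤ (M : ℝ) * (C1 * M) := by nlinarith
        exact le_of_mul_le_mul_right e2 (by positivity)
      have hW2 : ∑ t ∈ W, ‖D N b t‖ ^ 2 ≤ 2 * C1 * (M : ℝ) ^ 2 := by
        calc ∑ t ∈ W, ‖D N b t‖ ^ 2 ≤ C1 * ((M : ℝ) + W.card) * M := hWm
          _ ≤ C1 * ((M : ℝ) + M) * M := by gcongr
          _ = 2 * C1 * (M : ℝ) ^ 2 := by ring
      have hsumW : ∑ t ∈ W, ‖D N b t‖ ^ q ≤ C ^ q * (N : ℝ) ^ q := by
        have e1 : ∀ t ∈ W, ‖D N b t‖ ^ q ≤ (M : ℝ) ^ (q - 2) * ‖D N b t‖ ^ 2 := by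
          intro t ht
          rw [hW, mem_filter] at ht
          have hpos : 0 < ‖D N b t‖ := by
            have : 0 < ‖D N b t‖ ^ 2 := lt_of_lt_of_le (by positivity) ht.2
            by_contra hcon
            have h0 : ‖D N b t‖ = 0 := le_antisymm (not_lt.mp hcon) (norm_nonneg _)
            rw [h0] at this; norm_num at this
          have e2 : ‖D N b t‖ ^ q = ‖D N b t‖ ^ (q - 2) * ‖D N b t‖ ^ 2 := by
            rw [← Real.rpow_natCast (‖D N b t‖) 2, ← Real.rpow_add hpos]
            congr 1; push_cast; ring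
          rw [e2]
          apply mul_le_mul_of_nonneg_right _ (by positivity)
          apply Real.rpow_le_rpow hpos.le _ (by linarith)
          rw [hMN]
          exact hDle t
        calc ∑ t ∈ W, ‖D N b t‖ ^ q ≤ ∑ t ∈ W, (M : ℝ) ^ (q - 2) * ‖D N b t‖ ^ 2 := sum_le_sum e1
          _ = (M : ℝ) ^ (q - 2) * ∑ t ∈ W, ‖D N b t‖ ^ 2 := by rw [mul_sum]
          _ ≤ (M : ℝ) ^ (q - 2) * (2 * C1 * (M : ℝ) ^ 2) := by
              apply mul_le_mul_of_nonneg_left hW2 (by positivity)
          _ = 2 * C1 * (M : ℝ) ^ q := by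
              have : (M : ℝ) ^ q = (M : ℝ) ^ (q - 2) * (M : ℝ) ^ 2 := by
                rw [← Real.rpow_natCast (M : ℝ) 2, ← Real.rpow_add hM0]
                congr 1; push_cast; ring
              rw [this]; ring
          _ = 2 * C1 * ((2 : ℝ) ^ q * (N : ℝ) ^ q) := by
              rw [hMN, Real.mul_rpow (by norm_num) hNpos.le]
          _ ≤ (2 * C1) ^ q * ((2 : ℝ) ^ q * (N : ℝ) ^ q) := by
              apply mul_le_mul_of_nonneg_right _ (by positivity)
              calc 2 * C1 = (2 * C1) ^ (1 : ℝ) := (Real.rpow_one _).symm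
                _ ≤ (2 * C1) ^ q := Real.rpow_le_rpow_of_exponent_le (by linarith) (by linarith)
          _ = (4 * C1) ^ q * (N : ℝ) ^ q := by
              rw [← mul_assoc, ← Real.mul_rpow (by linarith) (by norm_num)]
              congr 2; ring
          _ ≤ C ^ q * (N : ℝ) ^ q := by
              apply mul_le_mul_of_nonneg_right _ (by positivity)
              exact Real.rpow_le_rpow (by linarith) hCa (by linarith)
      have hsumR : ∑ t ∈ S.filter (fun t => ¬ 2 * C1 * M ≤ ‖D N b t‖ ^ 2), ‖D N b t‖ ^ q ≤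
          S.card * (C ^ q * (N : ℝ) ^ (q / 2)) := by
        have e1 : ∀ t ∈ S.filter (fun t => ¬ 2 * C1 * M ≤ ‖D N b t‖ ^ 2),
            ‖D N b t‖ ^ q ≤ C ^ q * (N : ℝ) ^ (q / 2) := by
          intro t ht
          rw [mem_filter, not_le] at ht
          calc ‖D N b t‖ ^ q = (‖D N b t‖ ^ 2) ^ (q / 2) := by
                rw [← Real.rpow_natCast (‖D N b t‖) 2, ← Real.rpow_mul (norm_nonneg _)]
                congr 1; push_cast; ring
            _ ≤ (2 * C1 * M) ^ (q / 2) := Real.rpow_le_rpow (by positivity) ht.2.le (by linarith)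
            _ = (4 * C1) ^ (q / 2) * (N : ℝ) ^ (q / 2) := by
                rw [hMN, ← Real.mul_rpow (by linarith) hNpos.le]
                congr 1; ring
            _ ≤ C ^ q * (N : ℝ) ^ (q / 2) := by
                apply mul_le_mul_of_nonneg_right _ (by positivity)
                calc (4 * C1) ^ (q / 2) ≤ C ^ (q / 2) := Real.rpow_le_rpow (by linarith) hCa (by linarith)
                  _ ≤ C ^ q := Real.rpow_le_rpow_of_exponent_le hC1' (by linarith)
        calc _ ≤ ∑ t ∈ S.filter (fun t => ¬ 2 * C1 * M ≤ ‖D N b t‖ ^ 2), C ^ q * (N : ℝ) ^ (q / 2) := sum_le_sum e1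
          _ = ((S.filter (fun t => ¬ 2 * C1 * M ≤ ‖D N b t‖ ^ 2)).card : ℝ) * (C ^ q * (N : ℝ) ^ (q / 2)) := by
              rw [sum_const, nsmul_eq_mul]
          _ ≤ _ := by
              apply mul_le_mul_of_nonneg_right _ (by positivity)
              exact_mod_cast card_filter_le _ _
      rw [← sum_filter_add_sum_filter_not S (fun t => 2 * C1 * M ≤ ‖D N b t‖ ^ 2)]
      calc _ ≤ C ^ q * (N : ℝ) ^ q + S.card * (C ^ q * (N : ℝ) ^ (q / 2)) := add_le_add hsumW hsumR
        _ = _ := by ring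
  refine ⟨?_, key⟩
  intro T hT1 hT
  set S : Finset ℝ := (Icc 1 T).image (fun n : ℕ => (n : ℝ)) with hS
  have hinj : Set.InjOn (fun n : ℕ => (n : ℝ)) (Icc 1 T : Set ℕ) := fun _ _ _ _ h => Nat.cast_injective h
  have hcard : S.card = T := by
    rw [hS, card_image_of_injOn hinj, Nat.card_Icc]; omega
  have h1 := key 0 T S hT (by
    intro t ht
    rw [hS, mem_image] at ht
    obtain ⟨n, hn, rfl⟩ := ht
    rw [mem_Icc] at hn
    refine ⟨by positivity, ?_⟩
    rw [zero_add]
    exact_mod_cast hn.2) (by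
    intro t ht u hu hne
    rw [hS, mem_image] at ht hu
    obtain ⟨n, _, rfl⟩ := ht
    obtain ⟨m, _, rfl⟩ := hu
    have hnm : (n : ℤ) - m ≠ 0 := by
      intro h0
      apply hne
      have : n = m := by omega
      rw [this]
    have := Int.one_le_abs hnm
    exact_mod_cast this)
  rw [hcard, hS, sum_image (fun a ha b hb h => hinj ha hb h)] at h1
  exact h1

end Pool.Agent.Results.MP_2a1f0e_nt.PolynomialValues
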